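import Mathlib

/-!
# A bisymmetric operation which is reflexive only on a proper subinterval (MP_a2bf4b_an, Q1: yes)

On `I = [0, ∞)` the operation `F(x, y) = ⌊x⌋ + ⌊y⌋ + (fract x + fract y) / 2` is bisymmetric,
symmetric and strictly increasing in each variable, it is reflexive on `[0, 1)`, and
`F(1, 1) = 2 ≠ 1`.
-/

set_option autoImplicit false

namespace Pool.Agent.Results.MP_a2bf4b_an.ReflexiveSubinterval

/-- `I` is an interval of `ℝ` with more than one point. -/
def IsNondegInterval (I : Set ℝ) : Prop := I.OrdConnected ∧ I.Nontrivial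

/-- `F` maps `I × I` to `I`, so it is a binary operation on `I`. -/
def IsOperationOn (I : Set ℝ) (F : ℝ → ℝ → ℝ) : Prop := ∀ x ∈ I, ∀ y ∈ I, F x y ∈ I

/-- `F` is bisymmetric on `I`. -/
def IsBisymmetricOn (I : Set ℝ) (F : ℝ → ℝ → ℝ) : Prop :=
  ∀ x ∈ I, ∀ y ∈ I, ∀ u ∈ I, ∀ v ∈ I, F (F x y) (F u v) = F (F x u) (F y v)

/-- `F` is symmetric on `I`. -/
def IsSymmetricOn (I : Set ℝ) (F : ℝ → ℝ → ℝ) : Prop := ∀ x ∈ I, ∀ y ∈ I, F x y = F y x

/-- `F` is partially strictly increasing on `I`: strictly increasing in each variable. -/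
def IsPartStrictIncrOn (I : Set ℝ) (F : ℝ → ℝ → ℝ) : Prop :=
  (∀ y ∈ I, StrictMonoOn (fun x => F x y) I) ∧ (∀ x ∈ I, StrictMonoOn (fun y => F x y) I)

/-- The operation. -/
noncomputable def F (x y : ℝ) : ℝ := ⌊x⌋ + ⌊y⌋ + (Int.fract x + Int.fract y) / 2

lemma floor_F (x y : ℝ) : ⌊F x y⌋ = ⌊x⌋ + ⌊y⌋ := by
  rw [Int.floor_eq_iff]
  have h1 := Int.fract_nonneg x
  have h2 := Int.fract_nonneg y
  have h3 := Int.fract_lt_one x
  have h4 := Int.fract_lt_one y
  unfold F
  push_cast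
  constructor <;> linarith

lemma fract_F (x y : ℝ) : Int.fract (F x y) = (Int.fract x + Int.fract y) / 2 := by
  have h := Int.floor_add_fract (F x y)
  rw [floor_F] at h
  unfold F at h ⊢
  push_cast at h
  linarith

lemma F_symm (x y : ℝ) : F x y = F y x := by unfold F; ring

lemma F_bisymm (x y u v : ℝ) : F (F x y) (F u v) = F (F x u) (F y v) := by
  have key : ∀ a b : ℝ, F a b = ⌊a⌋ + ⌊b⌋ + (Int.fract a + Int.fract b) / 2 := fun _ _ => rfl
  rw [key (F x y) (F u v), key (F x u) (F y v), floor_F, floor_F, floor_F, floor_F, fract_F,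
    fract_F, fract_F, fract_F]
  push_cast
  ring

lemma F_mono (y : ℝ) : StrictMono (fun x => F x y) := by
  intro a b hab
  show F a y < F b y
  unfold F
  have h1 := Int.fract_nonneg b
  have h3 := Int.fract_lt_one a
  have ha := Int.floor_add_fract a
  have hb := Int.floor_add_fract b
  rcases (Int.floor_mono hab.le).eq_or_lt with h | h
  · have : (⌊a⌋ : ℝ) = ⌊b⌋ := by exact_mod_cast h
    linarith
  · have : (⌊a⌋ : ℝ) + 1 ≤ ⌊b⌋ := by exact_mod_cast h
    linarith

/-- There are a nondegenerate interval `I`, a bisymmetric, symmetric, partially strictly increasing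
operation on `I` and a proper subinterval `J` of `I` with more than one point such that the
operation is reflexive on `J` but not at every point of `I`. -/
theorem result : ∃ (I J : Set ℝ) (F : ℝ → ℝ → ℝ),
    IsNondegInterval I ∧ IsOperationOn I F ∧ IsBisymmetricOn I F ∧ IsSymmetricOn I F ∧
      IsPartStrictIncrOn I F ∧ IsNondegInterval J ∧ J ⊂ I ∧ (∀ x ∈ J, F x x = x) ∧
      ∃ x₀ ∈ I, F x₀ x₀ ≠ x₀ := by
  refine ⟨Set.Ici 0, Set.Ico 0 1, F, ⟨Set.ordConnected_Ici, ⟨0, by simp, 1, by simp, by simp⟩⟩,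
    ?_, ?_, ?_, ?_, ⟨Set.ordConnected_Ico, ⟨0, by simp, 1 / 2, by norm_num, by norm_num⟩⟩, ?_, ?_, ?_⟩
  · intro x hx y hy
    rw [Set.mem_Ici] at *
    have h1 := Int.fract_nonneg x
    have h2 := Int.fract_nonneg y
    have h3 : (0 : ℝ) ≤ ⌊x⌋ := by exact_mod_cast Int.floor_nonneg.2 hx
    have h4 : (0 : ℝ) ≤ ⌊y⌋ := by exact_mod_cast Int.floor_nonneg.2 hy
    unfold F
    linarith
  · intro x _ y _ u _ v _
    exact F_bisymm x y u v
  · intro x _ y _
    exact F_symm x y
  · refine ⟨fun y _ => (F_mono y).strictMonoOn _, fun x _ => ?_⟩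
    have : (fun y => F x y) = fun y => F y x := by
      funext y; exact F_symm x y
    rw [this]
    exact (F_mono x).strictMonoOn _
  · refine ⟨fun x hx => hx.1, fun h => ?_⟩
    have : (1 : ℝ) ∈ Set.Ico (0 : ℝ) 1 := h (by simp)
    exact lt_irrefl _ this.2
  · intro x hx
    have h1 : ⌊x⌋ = 0 := Int.floor_eq_zero_iff.2 hx
    have h2 : Int.fract x = x := Int.fract_eq_self.2 hx
    unfold F
    rw [h1, h2]
    push_cast
    ring
  · refine ⟨1, by simp, ?_⟩
    unfold F
    simp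

end Pool.Agent.Results.MP_a2bf4b_an.ReflexiveSubinterval
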